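import Pool.Agent.Helper209.GLT9

set_option autoImplicit false
open MeasureTheory Real
open scoped InnerProductSpace FourierTransform SchwartzMap

namespace Pool.Agent.Results.MP_114ef8_mp.CriticalLT

/-! Throughout, E is a Euclidean space of finite dimension n = finrank ℝ E (a copy of n-dimensional real space),
with its Lebesgue measure. -/

variable {E : Type} [NormedAddCommGroup E] [InnerProductSpace ℝ E] [FiniteDimensional ℝ E]
  [MeasurableSpace E] [BorelSpace E]

/-- u and g are square integrable and g is the Fourier transform of u (in the sense of duality with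
Schwartz functions; the Fourier transform has kernel exp(-2πi⟨x,ξ⟩)). -/
def IsFourierTransform (u g : E → ℂ) : Prop :=
  MemLp u 2 ∧ MemLp g 2 ∧ ∀ φ : 𝓢(E, ℂ), ∫ ξ, g ξ * φ ξ = ∫ x, u x * (𝓕 (fun y => φ y)) x

/-- u, with Fourier transform g, lies in the form domain of the operator H = (-Δ)^s - V:
u and g are square integrable, (2π|ξ|)^(2s) |g|² is integrable (finite kinetic energy; in this
normalisation the symbol of (-Δ)^s is (2π|ξ|)^(2s)), and V₋ |u|² is integrable. -/
def InFormDomain (s : ℝ) (V : E → ℝ) (u g : E → ℂ) : Prop :=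
  IsFourierTransform u g ∧ Integrable (fun ξ => (2 * π * ‖ξ‖) ^ (2 * s) * ‖g ξ‖ ^ 2) ∧
    Integrable (fun x => max (-(V x)) 0 * ‖u x‖ ^ 2)

/-- The sesquilinear form of H at (w, u), where h and g are the Fourier transforms of w and u:
the integral of (2π|ξ|)^(2s) conj(h) g minus the integral of V conj(w) u. -/
noncomputable def form (s : ℝ) (V : E → ℝ) (w h u g : E → ℂ) : ℂ :=
  (∫ ξ, (((2 * π * ‖ξ‖) ^ (2 * s) : ℝ) : ℂ) * ((starRingEnd ℂ) (h ξ) * g ξ))
    - ∫ x, ((V x : ℝ) : ℂ) * ((starRingEnd ℂ) (w x) * u x)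

/-- H u = e u for the self-adjoint operator H of the form: u lies in the form domain and
form(w,u) = e ⟨w,u⟩ for every w in the form domain. -/
def IsEigenfunction (s : ℝ) (V : E → ℝ) (e : ℝ) (u : E → ℂ) : Prop :=
  ∃ g, InFormDomain s V u g ∧
    ∀ w h, InFormDomain s V w h → form s V w h u g = (e : ℂ) * ∫ x, (starRingEnd ℂ) (w x) * u x

/-- Critical Lieb-Thirring inequality for every real power s > n/2 of the Laplacian in dimension n. -/
theorem result (E : Type) [NormedAddCommGroup E] [InnerProductSpace ℝ E] [FiniteDimensional ℝ E]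
    [MeasurableSpace E] [BorelSpace E] (n : ℕ) (hn : 1 ≤ n) (hE : Module.finrank ℝ E = n)
    (s : ℝ) (hs : (n : ℝ) / 2 < s) :
    ∃ L : ℝ, ∀ V : E → ℝ,
      Integrable (fun x => max (V x) 0) → LocallyIntegrable (fun x => max (-(V x)) 0) →
      ∀ (N : ℕ) (e : Fin N → ℝ) (u : Fin N → E → ℂ),
        (∀ i j, ∫ x, (starRingEnd ℂ) (u i x) * u j x = if i = j then 1 else 0) →
        (∀ i, e i < 0) → (∀ i, IsEigenfunction s V (e i) (u i)) →
        ∑ i, |e i| ^ (1 - (n : ℝ) / (2 * s)) ≤ L * ∫ x, max (V x) 0 := by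
  subst hE
  obtain ⟨C, _, h⟩ := Pool.Agent.Helper209.GLT.eig_fun E s hs
  exact ⟨C, fun V h1 h2 N e u hu he hue => h V h1 h2.aestronglyMeasurable N e u hu he hue⟩

end Pool.Agent.Results.MP_114ef8_mp.CriticalLT
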